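import Pool.Agent.Run7.h177.LG.Per

/-!
# Rational points and entire curves in varieties over abelian varieties, and in varieties with
symmetric differentials without common zeros
-/

set_option autoImplicit false
set_option linter.overlappingInstances false
set_option linter.unusedSectionVars false

open Filter Topology Metric Set LinearAlgebra.Projectivization

namespace Run7.h177.LG

open FF Pool.Agent.W602.GT Pool.Agent.Y190.OP Pool.Agent.N154.TB
open Pool.Agent.N154.TT (RiemannForm HolToTorus)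
open Pool.Agent.N154.GG (projDist)
open Pool.Agent.Q103.AR (Points)

variable {n : ℕ}

/-- curves in algebraic curves lie in `Q = 0` -/
theorem small_zero {k : Type} [Field k] [NumberField k] (σ : k →+* ℂ) {ι κ : Type}
    (F : ι → MvPolynomial (Fin (n + 1)) k) (hF : ∀ e, IsForm (F e))
    (Q : κ → MvPolynomial (Fin (n + 1)) k) (hQ : ∀ j, IsForm (Q j))
    (hfin : ∀ (L : Type) [Field L] [NumberField L] [Algebra k L],
      (Points F L \ Points Q L).Finite) {f : ℂ → ℙ ℂ (Fin (n + 1) → ℂ)}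
    (hf : Pool.Agent.N155.HolMap f)
    (hfX : ∀ z, (f z).rep ∈ Cone (fun e => MvPolynomial.map σ (F e))) {B : ℝ}
    (hB : ∀ z, ‖fderiv ℝ (fun z => Phi (f z).rep) z‖ ≤ B) (hnc : ∃ z w, f z ≠ f w)
    (hsm : SmallClosure f) : ∀ j z, val (f z).rep (MvPolynomial.map σ (Q j)) = 0 := by
  intro j z
  by_contra hcon
  obtain ⟨L, _, _, _, hinf⟩ := entire_points σ F hF (Q j) (hQ j) hf hfX hB hnc hsm ⟨z, hcon⟩
  refine hinf ((hfin L).subset ?_)
  rintro P ⟨h1, h2⟩
  exact ⟨h1, fun h3 => h2 (h3 j)⟩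

/-- closed subsets -/
theorem closure_cone {ι : Type} {F : ι → MvPolynomial (Fin (n + 1)) ℂ} (hF : ∀ i, IsForm (F i))
    {p : ℙ ℂ (Fin (n + 1) → ℂ)} (hp : ∀ ε > 0, ∃ q : ℙ ℂ (Fin (n + 1) → ℂ), q.rep ∈ Cone F ∧
      projDist p q < ε) : p.rep ∈ Cone F := by
  rw [← Pool.Agent.N155.BB.Phi_mem hF p.rep_nonzero,
    ← (Pool.Agent.N155.BB.isCompact_TF hF).isClosed.closure_eq, Metric.mem_closure_iff]
  intro ε hε
  obtain ⟨q, hq, hd⟩ := hp ε hε
  refine ⟨Phi q.rep, Pool.Agent.N155.BB.mem_TF hq, ?_⟩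
  rw [dist_eq_norm]
  exact hd

theorem projDist_triangle (p q r : ℙ ℂ (Fin (n + 1) → ℂ)) :
    projDist p r ≤ projDist p q + projDist q r := by
  have h := norm_sub_le_norm_sub_add_norm_sub (Phi p.rep) (Phi q.rep) (Phi r.rep)
  exact h

theorem projDist_self (p : ℙ ℂ (Fin (n + 1) → ℂ)) : projDist p p = 0 := by
  change ‖Phi p.rep - Phi p.rep‖ = 0
  rw [sub_self, norm_zero]

/-- **Rational points and entire curves in varieties over abelian varieties.** -/
theorem main_abel {k : Type} [Field k] [NumberField k] (σ : k →+* ℂ) {ι ι' κ : Type}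
    (F : ι → MvPolynomial (Fin (n + 1)) k) (hF : ∀ e, IsForm (F e)) {d m : ℕ}
    (G : ι' → MvPolynomial (Fin (n + 1)) ℂ) (hG : ∀ j, IsForm (G j))
    (Λ : Submodule ℤ (Fin m → ℂ)) [DiscreteTopology Λ] [IsZLattice ℝ Λ]
    (H : (Fin m → ℂ) → (Fin m → ℂ) → ℂ) (hH : RiemannForm Λ H)
    (α : (Fin (n + 1) → ℂ) → (Fin m → ℂ) ⧸ Λ)
    (hα : HolToTorus (Cone (fun e => MvPolynomial.map σ (F e))) Λ α) {κ' : Type} (t : κ' → ℕ)
    (η : κ' → (Fin (n + 1) → ℂ) → (Fin (n + 1) → ℂ) → (Fin (n + 1) → ℂ) → ℂ)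
    (hη : TwoForms (Cone (fun e => MvPolynomial.map σ (F e))) (Zeros G) d α t η)
    (hfib : ∀ h, CurveIn (Cone (fun e => MvPolynomial.map σ (F e))) h →
      (∀ z w, α (h z).rep = α (h w).rep) → IsConst h ∨ InCurve h)
    (hS : ∀ h, CurveIn (Cone (fun e => MvPolynomial.map σ (F e))) h →
      (∀ z, (h z).rep ∈ Zeros G) → IsConst h ∨ InCurve h)
    (Q : κ → MvPolynomial (Fin (n + 1)) k) (hQ : ∀ j, IsForm (Q j))
    (hfin : ∀ (L : Type) [Field L] [NumberField L] [Algebra k L],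
      (Points F L \ Points Q L).Finite) :
    ∀ f, CurveIn (Cone (fun e => MvPolynomial.map σ (F e))) f → IsConst f ∨
      ∃ h, CurveIn (Cone (fun e => MvPolynomial.map σ (F e))) h ∧ ¬ IsConst h ∧
        (∀ j z, val (h z).rep (MvPolynomial.map σ (Q j)) = 0) ∧
        ∀ z, ∀ ε > 0, ∃ w, projDist (h z) (f w) < ε := by
  intro f hf
  by_cases hc : IsConst f
  · exact Or.inl hc
  right
  have hFσ : ∀ e, IsForm (MvPolynomial.map σ (F e)) := by
    intro e
    obtain ⟨D, hD⟩ := hF e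
    exact ⟨D, hD.map σ⟩
  set X := Cone (fun e => MvPolynomial.map σ (F e)) with hX
  set V : Set (ℙ ℂ (Fin (n + 1) → ℂ)) := {p | p.rep ∈ X ∧ ∀ ε > 0, ∃ w, projDist p (f w) < ε}
    with hV
  have hfV : ∀ z, f z ∈ V := fun z => ⟨hf.2 z, fun ε hε => ⟨z, by rwa [projDist_self]⟩⟩
  rcases closed_geo hFσ hG hη hH hα (V := V) (fun p hp => hp.1) (fun p hp => by
      refine ⟨closure_cone hFσ fun ε hε => ?_, fun ε hε => ?_⟩
      · obtain ⟨q, hq, hd⟩ := hp ε hε
        exact ⟨q, hq.1, hd⟩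
      · obtain ⟨q, hq, hd⟩ := hp (ε / 2) (by positivity)
        obtain ⟨w, hw⟩ := hq.2 (ε / 2) (by positivity)
        refine ⟨w, (projDist_triangle p q (f w)).trans_lt ?_⟩
        linarith) with ⟨h, hh, hnc, hhV, hor, hlip⟩ | ⟨T, -, hT, hfac, -⟩
  · have hin : InCurve h := by
      rcases hor with h1 | h1
      · exact (hfib h hh h1).resolve_left hnc
      · exact (hS h hh h1).resolve_left hnc
    have hB : ∀ z, ‖fderiv ℝ (fun z => Phi (h z).rep) z‖ ≤ 2 := by
      intro z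
      apply norm_fderiv_le_of_lip' ℝ (by norm_num)
      exact Eventually.of_forall fun w => hlip w z
    have hnc' : ∃ z w, h z ≠ h w := by
      by_contra hcon
      push Not at hcon
      exact hnc hcon
    exact ⟨h, hh, hnc, small_zero σ F hF Q hQ hfin hh.1 hh.2 hB hnc' (small_of_inCurve hin),
      fun z => (hhV z).2⟩
  · obtain ⟨g, hg, s, -, hgs⟩ := (hfac f hf hfV).resolve_left hc
    obtain ⟨hgc, hgV, hge, -⟩ := hT g hg
    have hnc' : ∃ z w, g z ≠ g w := by
      by_contra hcon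
      push Not at hcon
      apply hc
      intro z w
      rw [hgs, hgs]
      exact hcon _ _
    obtain ⟨B, hB⟩ := bounded_of_periodic (f := g) hgc.1 hge
    refine ⟨g, hgc, fun h1 => ?_, small_zero σ F hF Q hQ hfin hgc.1 hgc.2 hB hnc'
      (small_of_periodic hgc.1 hge), fun z => (hgV z).2⟩
    obtain ⟨z, w, hzw⟩ := hnc'
    exact hzw (h1 z w)

end Run7.h177.LG
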