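import Pool.Agent.W602.GT.MordDefs

/-!
# Maps into algebraic curves: definition
-/

set_option autoImplicit false

open scoped LinearAlgebra.Projectivization

namespace Run7.h177.LG

open Pool.Agent.W602.GT

variable {n : ℕ}

/-- The image of `f` is contained in an irreducible algebraic curve in projective space, with the
generic point `v` and the function field `E`. -/
def InCurve (f : ℂ → ℙ ℂ (Fin (n + 1) → ℂ)) : Prop :=
  ∃ (E : Type) (_ : Field E) (_ : Algebra ℂ E) (v : Fin (n + 1) → E), v ≠ 0 ∧
    coords ℂ v = ⊤ ∧ Algebra.trdeg ℂ E = (1 : ℕ) ∧ ∀ z, (f z).rep ∈ VarPts ℂ v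

end Run7.h177.LG
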