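import Pool.Agent.Q103.AR.Stm
import Pool.Agent.W603.BP.Extn
import Pool.Agent.W602.GT.SpGmDefs

/-!
# Hyperbolicity modulo a closed subset, and rational points outside of it: definitions
-/

set_option autoImplicit false

open Metric

namespace Run7.h177.LG

open FF Pool.Agent.W602.GT
open Pool.Agent.Q103.AR (Points)
open Pool.Agent.W603.BP (Extends)

/-- For all number fields `L` which contain `k`, all but finitely many `L`-rational points of the
projective variety `X = {F = 0}` over `k` are on the closed subset `Z = {Q = 0}`. -/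
def FiniteOff {k : Type} [Field k] [NumberField k] {n : ℕ} {ι κ : Type}
    (F : ι → MvPolynomial (Fin (n + 1)) k) (Q : κ → MvPolynomial (Fin (n + 1)) k) : Prop :=
  ∀ (L : Type) [Field L] [NumberField L] [Algebra k L], (Points F L \ Points Q L).Finite

/-- Every holomorphic map from the complex plane to the projective variety `X = {F = 0}` is constant
or its values are in `Z = {Q = 0}`. -/
def EntireIn {n : ℕ} {ι κ : Type} (F : ι → MvPolynomial (Fin (n + 1)) ℂ)
    (Q : κ → MvPolynomial (Fin (n + 1)) ℂ) : Prop :=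
  ∀ f : ℂ → Fin (n + 1) → ℂ, Differentiable ℂ f → (∀ z, f z ≠ 0) →
    (∀ z e, MvPolynomial.eval (f z) (F e) = 0) →
      (∀ z w, ∃ c : ℂ, f z = c • f w) ∨ ∀ z j, MvPolynomial.eval (f z) (Q j) = 0

/-- Every holomorphic map from the punctured unit disc to the projective variety `X = {F = 0}`
extends to a holomorphic map from the disc or its values are in `Z = {Q = 0}`. -/
def PicardIn {n : ℕ} {ι κ : Type} (F : ι → MvPolynomial (Fin (n + 1)) ℂ)
    (Q : κ → MvPolynomial (Fin (n + 1)) ℂ) : Prop :=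
  ∀ f : ℂ → Fin (n + 1) → ℂ, DifferentiableOn ℂ f (ball 0 1 \ {0}) →
    (∀ z ∈ ball (0 : ℂ) 1 \ {0}, f z ≠ 0 ∧ ∀ e, MvPolynomial.eval (f z) (F e) = 0) →
      Extends f ∨ ∀ z ∈ ball (0 : ℂ) 1 \ {0}, ∀ j, MvPolynomial.eval (f z) (Q j) = 0

/-- All closed subvarieties of positive dimension of `X = {F = 0}` which are not contained in
`Z = {Q = 0}` are of general type. -/
def GeneralOff {n : ℕ} {ι κ : Type} (F : ι → MvPolynomial (Fin (n + 1)) ℂ)
    (Q : κ → MvPolynomial (Fin (n + 1)) ℂ) : Prop :=
  ∀ (K : Type) [Field K] [Algebra ℂ K] (w : ℕ) (y : Fin (n + 1) → K), 1 ≤ w → SubVar F K w y →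
    (∃ j, val y (Q j) ≠ 0) → GeneralType ℂ K w

end Run7.h177.LG
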