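import Pool.Agent.Run7.h177.LG.Low
import Pool.Agent.Run7.h177.LG.Defs
import Pool.Agent.W602.GT.SpThm

/-!
# Images of the multiplicative group and rational points over number fields
-/

set_option autoImplicit false
set_option linter.overlappingInstances false
set_option linter.unusedSectionVars false

namespace Run7.h177.LG

open FF
open Pool.Agent.W602.GT
open Pool.Agent.W603.LV (canDeg)
open Pool.Agent.Q271.RC (Nonconst IsGeneric IsPoint)
open Pool.Agent.Q103.AR (Points)

section

variable {n : ℕ} {ι : Type} {F : ι → MvPolynomial (Fin (n + 1)) ℂ}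

/-- the point over the field of rational functions given by a morphism of the multiplicative
group -/
theorem gm_point {P : Fin (n + 1) → Polynomial ℂ} (hP : GmCurve F P) :
    Nonconst (fun i => algebraMap (Polynomial ℂ) (RatFunc ℂ) (P i)) ∧
    (∀ e, val (fun i => algebraMap (Polynomial ℂ) (RatFunc ℂ) (P i)) (F e) = 0) ∧
    ∀ (G : MvPolynomial (Fin (n + 1)) ℂ) (t : ℂ), val (fun i => (P i).eval t) G ≠ 0 →
      val (fun i => algebraMap (Polynomial ℂ) (RatFunc ℂ) (P i)) G ≠ 0 := by
  have hinj : Function.Injective (algebraMap (Polynomial ℂ) (RatFunc ℂ)) :=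
    RatFunc.algebraMap_injective ℂ
  refine ⟨?_, fun e => ?_, fun G t hne h0 => ?_⟩
  · obtain ⟨j0, hj0⟩ : ∃ j0, P j0 ≠ 0 := by
      by_contra hcon
      push Not at hcon
      apply hP.ne 1 one_ne_zero
      funext i
      rw [hcon i]
      simp
    have hj0' : algebraMap (Polynomial ℂ) (RatFunc ℂ) (P j0) ≠ 0 := fun h0 =>
      hj0 (hinj (by rw [map_zero]; exact h0))
    by_contra hnc
    obtain ⟨t1, t2, ht1, ht2, hli⟩ := hP.nonconst
    -- all ratios are constant
    have hc : ∀ i, ∃ c : ℂ, P i = Polynomial.C c * P j0 := by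
      intro i
      have h1 : IsAlgebraic ℂ (algebraMap (Polynomial ℂ) (RatFunc ℂ) (P i) /
          algebraMap (Polynomial ℂ) (RatFunc ℂ) (P j0)) := by
        by_contra htr
        exact hnc ⟨i, j0, hj0', htr⟩
      obtain ⟨c, hc⟩ : ∃ c : ℂ, algebraMap ℂ (RatFunc ℂ) c =
          algebraMap (Polynomial ℂ) (RatFunc ℂ) (P i) /
            algebraMap (Polynomial ℂ) (RatFunc ℂ) (P j0) := by
        have h2 := minpoly.mem_range_of_degree_eq_one ℂ _
          (IsAlgClosed.degree_eq_one_of_irreducible ℂ (minpoly.irreducible h1.isIntegral))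
        exact h2
      refine ⟨c, hinj ?_⟩
      rw [map_mul]
      have h2 : algebraMap (Polynomial ℂ) (RatFunc ℂ) (Polynomial.C c) =
          algebraMap ℂ (RatFunc ℂ) c := by
        rw [IsScalarTower.algebraMap_apply ℂ (Polynomial ℂ) (RatFunc ℂ)]
        rfl
      rw [h2, hc]
      field_simp
    choose c hc using hc
    rw [LinearIndependent.pair_iff] at hli
    have h3 := hli ((P j0).eval t2) (-(P j0).eval t1) (by
      funext i
      simp only [Pi.add_apply, Pi.smul_apply, smul_eq_mul, Pi.zero_apply]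
      rw [hc i]
      simp
      ring)
    apply hP.ne t2 ht2
    funext i
    rw [hc i]
    simp [h3.1]
  · obtain ⟨R, hR1, hR2⟩ := val_poly P (F e)
    have h0 : R = 0 := poly_zero fun t ht => by rw [hR1]; exact hP.mem t ht e
    rw [← hR2, h0, map_zero]
  · obtain ⟨R, hR1, hR2⟩ := val_poly P G
    rw [← hR2] at h0
    have h2 : R = 0 := hinj (by rw [h0, map_zero])
    apply hne
    rw [← hR1, h2]
    simp

/-- Points at which a form does not vanish. -/
theorem exists_varPt {K : Type} [Field K] [Algebra ℂ K] {y : Fin (n + 1) → K}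
    {H : MvPolynomial (Fin (n + 1)) ℂ} (hH : val y H ≠ 0) (hy : y ≠ 0) :
    ∃ q ∈ VarPts ℂ y, val q H ≠ 0 := by
  classical
  obtain ⟨b, hb⟩ := Function.ne_iff.1 hy
  set I : Ideal (MvPolynomial (Fin (n + 1)) ℂ) :=
    RingHom.ker (MvPolynomial.aeval y : MvPolynomial (Fin (n + 1)) ℂ →ₐ[ℂ] K) with hI
  have hprime : I.IsPrime := RingHom.ker_isPrime _
  have hnot : H * MvPolynomial.X b ∉ I := by
    intro h
    rw [hI, RingHom.mem_ker, map_mul, MvPolynomial.aeval_X] at h
    exact mul_ne_zero hH hb h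
  rw [← MvPolynomial.IsPrime.vanishingIdeal_zeroLocus (K := ℂ) I,
    MvPolynomial.mem_vanishingIdeal_iff] at hnot
  push Not at hnot
  obtain ⟨x, hx, hx0⟩ := hnot
  rw [map_mul, MvPolynomial.aeval_X] at hx0
  exact ⟨x, ⟨fun h0 => right_ne_zero_of_mul hx0 (congrFun h0 b), fun G _ hG => hx G hG⟩,
    left_ne_zero_of_mul hx0⟩

end

variable {k : Type} [Field k] [NumberField k] (σ : k →+* ℂ) {n : ℕ} {ι κ : Type}
  (F : ι → MvPolynomial (Fin (n + 1)) k)

/-- Images of the multiplicative group in `X_σ` give infinitely many points over some number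
field. -/
theorem gm_points (hF : ∀ e, IsForm (F e)) (G : MvPolynomial (Fin (n + 1)) k) (hG : IsForm G)
    {P : Fin (n + 1) → Polynomial ℂ} (hP : GmCurve (fun e => MvPolynomial.map σ (F e)) P) {t : ℂ}
    (hne : val (fun i => (P i).eval t) (MvPolynomial.map σ G) ≠ 0) :
    ∃ (L : Type) (_ : Field L) (_ : NumberField L) (_ : Algebra k L),
      {P | P ∈ Points F L ∧ MvPolynomial.aeval P.rep G ≠ 0}.Infinite := by
  obtain ⟨h1, h2, h3⟩ := gm_point hP
  refine low_points σ F hF G hG (E := RatFunc ℂ) ?_ h1 h2 (h3 _ t hne)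
  rw [Pool.Agent.Y216.canDeg_ratFunc]
  norm_num

/-- Images of the multiplicative group lie in each closed subset which contains almost all rational
points. -/
theorem gm_zero (hF : ∀ e, IsForm (F e)) {Q : κ → MvPolynomial (Fin (n + 1)) k}
    (hQ : ∀ j, IsForm (Q j)) (hfin : FiniteOff F Q) {P : Fin (n + 1) → Polynomial ℂ}
    (hP : GmCurve (fun e => MvPolynomial.map σ (F e)) P) (t : ℂ) (j : κ) :
    val (fun i => (P i).eval t) (MvPolynomial.map σ (Q j)) = 0 := by
  by_contra hne
  obtain ⟨L, _, _, _, hinf⟩ := gm_points σ F hF (Q j) (hQ j) hP hne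
  refine hinf ((hfin L).subset ?_)
  rintro x ⟨h1, h2⟩
  exact ⟨h1, fun h3 => h2 (h3 j)⟩

/-- The closure of the union of the images of the multiplicative group. -/
theorem spGm_zero (hF : ∀ e, IsForm (F e)) {Q : κ → MvPolynomial (Fin (n + 1)) k}
    (hQ : ∀ j, IsForm (Q j)) (hfin : FiniteOff F Q) {x : Fin (n + 1) → ℂ}
    (hx : x ∈ SpGm (fun e => MvPolynomial.map σ (F e))) (j : κ) :
    val x (MvPolynomial.map σ (Q j)) = 0 := by
  refine hx.2 _ ?_ fun P hP t _ => gm_zero σ F hF hQ hfin hP t j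
  obtain ⟨d, hd⟩ := hQ j
  exact ⟨d, hd.map σ⟩

/-- Subvarieties which are not of general type. -/
theorem general_off (hF : ∀ e, IsForm (F e)) {Q : κ → MvPolynomial (Fin (n + 1)) k}
    (hQ : ∀ j, IsForm (Q j)) (hfin : FiniteOff F Q)
    (hsp : SpAlg (fun e => MvPolynomial.map σ (F e)) ⊆
      SpGm (fun e => MvPolynomial.map σ (F e))) :
    GeneralOff (fun e => MvPolynomial.map σ (F e)) (fun j => MvPolynomial.map σ (Q j)) := by
  intro K _ _ w y hw hy ⟨j, hj⟩
  by_contra hgt
  obtain ⟨q, hq, hqH⟩ := exists_varPt hj hy.ne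
  apply hqH
  refine spGm_zero σ F hF hQ hfin (hsp ⟨⟨hq.1, fun e => ?_⟩, fun G hG h => ?_⟩) j
  · obtain ⟨d, hd⟩ := hF e
    exact hq.2 _ ⟨d, hd.map σ⟩ (hy.mem e)
  · exact hq.2 G hG (h K w y hw hy hgt)

end Run7.h177.LG
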