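import Pool.Agent.Q103.AR.Main
import Pool.Agent.Q103.SF.Conv
import Pool.Agent.TH466.QG.Equiv
import Pool.Agent.Q96.OS.Gen
import Pool.Agent.Q103.SF.Disc

/-!
# Curves of genus at most one and rational points over number fields
-/

set_option autoImplicit false
set_option linter.overlappingInstances false
set_option linter.unusedSectionVars false

namespace Run7.h177.LG

open FF
open Pool.Agent.W602.GT
open Pool.Agent.Y216 (OnVar)
open Pool.Agent.W603.LV (canDeg)
open Pool.Agent.Q271.RC (Nonconst IsGeneric IsPoint)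
open Pool.Agent.Q103.SF (IsElliptic van exists_ell nonconst_of_low gt_of_canDeg)
open Pool.Agent.Q103.AR (Points infinite_of_elliptic)

variable {k : Type} [Field k] [NumberField k] (σ : k →+* ℂ) {M : ℕ} {ι : Type}
  (F : ι → MvPolynomial (Fin (M + 1)) k)

/-- A nonconstant point of `X_σ` over an elliptic function field, not on `G = 0`, gives infinitely
many points, not on `G = 0`, over some number field. -/
theorem ell_points (hF : ∀ e, IsForm (F e)) (G : MvPolynomial (Fin (M + 1)) k) (hG : IsForm G)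
    {E : Type} [Field E] [Algebra ℂ E] (hE : IsElliptic E) {v : Fin (M + 1) → E}
    (hn : Nonconst v) (hv : ∀ e, val v (MvPolynomial.map σ (F e)) = 0)
    (hvG : val v (MvPolynomial.map σ G) ≠ 0) :
    ∃ (L : Type) (_ : Field L) (_ : NumberField L) (_ : Algebra k L),
      {P | P ∈ Points F L ∧ MvPolynomial.aeval P.rep G ≠ 0}.Infinite := by
  let _ : Algebra k ℂ := σ.toAlgebra
  obtain ⟨a, b, X, Y, hab, hXY, htop⟩ := hE
  obtain ⟨i, l, hl, htr⟩ := hn
  exact infinite_of_elliptic (k := k) (Om := ℂ) F hF G hG hab hXY htop v i l hl htr hv hvG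

/-- A curve of genus at most one on `X_σ`, not in `G = 0`, gives infinitely many points, not on
`G = 0`, over some number field. -/
theorem low_points (hF : ∀ e, IsForm (F e)) (G : MvPolynomial (Fin (M + 1)) k) (hG : IsForm G)
    {E : Type} [Field E] [Algebra ℂ E] [IsFF ℂ E] (hc : canDeg ℂ E ≤ 0) {v : Fin (M + 1) → E}
    (hn : Nonconst v) (hv : ∀ e, val v (MvPolynomial.map σ (F e)) = 0)
    (hvG : val v (MvPolynomial.map σ G) ≠ 0) :
    ∃ (L : Type) (_ : Field L) (_ : NumberField L) (_ : Algebra k L),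
      {P | P ∈ Points F L ∧ MvPolynomial.aeval P.rep G ≠ 0}.Infinite := by
  obtain ⟨E', _, _, _, τ, hE'⟩ := exists_ell hc
  have hval : ∀ H : MvPolynomial (Fin (M + 1)) ℂ, val (fun i => τ (v i)) H = τ (val v H) := by
    intro H
    unfold Pool.Agent.W602.GT.val
    rw [MvPolynomial.comp_aeval_apply]
  refine ell_points σ F hF G hG hE' (v := fun i => τ (v i)) ?_ ?_ ?_
  · obtain ⟨i, j, hj, hij⟩ := hn
    refine ⟨i, j, (map_ne_zero τ).2 hj, ?_⟩
    rw [← map_div₀]
    intro h
    exact hij ((isAlgebraic_algHom_iff τ τ.injective).1 h)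
  · intro e
    rw [hval, hv e, map_zero]
  · rw [hval]
    exact (map_ne_zero τ).2 hvG

/-- the forms are forms before the embedding -/
theorem isForm_of_map {G : MvPolynomial (Fin (M + 1)) k} (h : IsForm (MvPolynomial.map σ G)) :
    IsForm G := by
  obtain ⟨d, hd⟩ := h
  exact ⟨d, hd.of_map σ.injective⟩

/-- A subvariety of dimension one which is not of general type gives infinitely many points. -/
theorem sub_points (hF : ∀ e, IsForm (F e)) (G : MvPolynomial (Fin (M + 1)) k) (hG : IsForm G)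
    {E : Type} [Field E] [Algebra ℂ E] {v : Fin (M + 1) → E}
    (hv : SubVar (fun e => MvPolynomial.map σ (F e)) E 1 v)
    (hgt : ¬ GeneralType ℂ E 1) (hvG : val v (MvPolynomial.map σ G) ≠ 0) :
    ∃ (L : Type) (_ : Field L) (_ : NumberField L) (_ : Algebra k L),
      {P | P ∈ Points F L ∧ MvPolynomial.aeval P.rep G ≠ 0}.Infinite := by
  have hff : IsFF ℂ E := ⟨Pool.Agent.Q72.NA.ess_of_adjoin hv.gen, by rw [hv.dim]; simp⟩
  have hc : canDeg ℂ E ≤ 0 := by
    by_contra hcon
    exact hgt (gt_of_canDeg (not_le.1 hcon))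
  have hne : ∃ j, v j ≠ 0 := Function.ne_iff.1 hv.ne
  have hn : Nonconst v := Pool.Agent.Q96.LS.nonconst_of ⟨hne, hv.gen⟩ (by
    rw [hv.dim])
  exact low_points σ F hF G hG hc hn hv.mem hvG

/-- If `X(L)` is finite for all number fields `L ⊇ k`, then all the subvarieties of dimension one of
`X_σ` are of general type. -/
theorem curve_general (hF : ∀ e, IsForm (F e))
    (hfin : ∀ (L : Type) [Field L] [NumberField L] [Algebra k L], (Points F L).Finite)
    {E : Type} [Field E] [Algebra ℂ E] {v : Fin (M + 1) → E}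
    (hv : SubVar (fun e => MvPolynomial.map σ (F e)) E 1 v) : GeneralType ℂ E 1 := by
  by_contra hgt
  obtain ⟨L, _, _, _, hinf⟩ := sub_points σ F hF 1 ⟨0, MvPolynomial.isHomogeneous_one _ _⟩ hv hgt (by
    rw [map_one]
    unfold Pool.Agent.W602.GT.val
    rw [map_one]
    exact one_ne_zero)
  exact hinf ((hfin L).subset fun P hP => hP.1)

/-- **Nullstellensatz**: a form which vanishes at the generic point of `X` vanishes at all points of
`X` with coordinates in extensions of `ℂ`, if the common zeros of the equations are in `X`. -/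
theorem null {K : Type} [Field K] [Algebra ℂ K] {n : ℕ} {κ : Type}
    {H : κ → MvPolynomial (Fin (n + 1)) ℂ} {y : Fin (n + 1) → K}
    (hirr : Cone H ⊆ VarPts ℂ y) {E : Type} [Field E] [Algebra ℂ E]
    {v : Fin (n + 1) → E} (hv : ∀ i, val v (H i) = 0) {G : MvPolynomial (Fin (n + 1)) ℂ}
    (hG : IsForm G) (hGy : val y G = 0) : val v G = 0 := by
  classical
  obtain ⟨d, hd⟩ := hG
  by_cases hd0 : d = 0
  · subst hd0
    obtain ⟨c, hc⟩ : ∃ c : ℂ, G = MvPolynomial.C c :=
      ⟨_, MvPolynomial.totalDegree_eq_zero_iff_eq_C.1 (Nat.le_zero.1 hd.totalDegree_le)⟩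
    have h1 : algebraMap ℂ K c = 0 := by
      have h2 := hGy
      unfold Pool.Agent.W602.GT.val at h2
      rwa [hc, MvPolynomial.aeval_C] at h2
    have h2 : c = 0 := (map_eq_zero _).1 h1
    rw [hc, h2, map_zero]
    unfold Pool.Agent.W602.GT.val
    rw [map_zero]
  have hrad : G ∈ (Ideal.span (Set.range H)).radical := by
    rw [← MvPolynomial.vanishingIdeal_zeroLocus_eq_radical (K := ℂ)]
    intro x hx
    by_cases hx0 : x = 0
    · have h1 := val_smul hd (0 : ℂ) x
      rw [zero_pow hd0, zero_mul] at h1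
      have h2 : (fun i => (0 : ℂ) * x i) = x := by
        funext i
        rw [hx0, Pi.zero_apply, mul_zero]
      rw [h2] at h1
      exact h1
    · have hxH : ∀ i, val x (H i) = 0 := fun i => hx (H i) (Ideal.subset_span ⟨i, rfl⟩)
      exact (hirr ⟨hx0, hxH⟩).2 G ⟨d, hd⟩ hGy
  obtain ⟨N, hN⟩ := hrad
  have hle : Ideal.span (Set.range H) ≤ RingHom.ker (MvPolynomial.aeval v : _ →ₐ[ℂ] E).toRingHom := by
    rw [Ideal.span_le]
    rintro _ ⟨i, rfl⟩
    exact hv i
  have h1 : MvPolynomial.aeval v (G ^ N) = 0 := hle hN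
  rw [map_pow] at h1
  by_contra h2
  exact pow_ne_zero N h2 h1

/-- A subvariety of `X`, `X` irreducible of dimension `d`, has dimension at most `d`, and if its
dimension is `d`, its function field is that of `X`. -/
theorem sub_dim {K : Type} [Field K] [Algebra ℂ K] {n d : ℕ} {κ : Type}
    {H : κ → MvPolynomial (Fin (n + 1)) ℂ} {y : Fin (n + 1) → K} (hy : SubVar H K d y)
    (hirr : Cone H ⊆ VarPts ℂ y) {E : Type} [Field E] [Algebra ℂ E]
    {w : ℕ} {v : Fin (n + 1) → E} (hv : SubVar H E w v) :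
    w ≤ d ∧ (w = d → Nonempty (K ≃ₐ[ℂ] E)) := by
  have hyg : IsGeneric y := ⟨Function.ne_iff.1 hy.ne, hy.gen⟩
  have hvg : IsGeneric v := ⟨Function.ne_iff.1 hv.ne, hv.gen⟩
  have hpt : IsPoint y v := fun G D hG hGy => null hirr hv.mem ⟨D, hG⟩ hGy
  obtain ⟨h1, h2⟩ := Pool.Agent.Q96.OS.gen_point' hyg hy.dim E v w hpt hvg hv.dim
  refine ⟨h1, fun h => ?_⟩
  obtain ⟨τ, l, -, -, hs⟩ := h2 h
  exact ⟨AlgEquiv.ofBijective τ ⟨τ.injective, hs⟩⟩

end Run7.h177.LG
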