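import Pool.Agent.W602.GT.PsOrb
import Pool.Agent.W602.GT.Orb
import Pool.Agent.W603.CX.Groupless

/-!
# Orbits of diagonal one-parameter groups over different algebraically closed fields
-/

set_option autoImplicit false

namespace Run7.h177.LG

open Pool.Agent.W602.GT
open Pool.Agent.W603.CX (OrbitsConstant)

/-- solutions of systems of equations over different algebraically closed fields -/
theorem transfer {k K₁ K₂ : Type} [Field k] [Field K₁] [Algebra k K₁] [Field K₂] [Algebra k K₂]
    [IsAlgClosed K₂] {m : ℕ} {κ : Type} (p : κ → MvPolynomial (Fin m) k) {x : Fin m → K₁}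
    (hx : ∀ i, MvPolynomial.aeval x (p i) = 0) {g : MvPolynomial (Fin m) k}
    (hg : MvPolynomial.aeval x g ≠ 0) :
    ∃ y : Fin m → K₂, (∀ i, MvPolynomial.aeval y (p i) = 0) ∧ MvPolynomial.aeval y g ≠ 0 := by
  by_contra hcon
  push Not at hcon
  have h1 : g ∈ MvPolynomial.vanishingIdeal k
      (MvPolynomial.zeroLocus K₂ (Ideal.span (Set.range p))) := by
    intro y hy
    exact hcon y fun i => hy _ (Ideal.subset_span ⟨i, rfl⟩)
  rw [MvPolynomial.vanishingIdeal_zeroLocus_eq_radical] at h1
  obtain ⟨N, hN⟩ := h1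
  have hle : Ideal.span (Set.range p) ≤
      RingHom.ker (MvPolynomial.aeval x : MvPolynomial (Fin m) k →ₐ[k] K₁) := by
    rw [Ideal.span_le]
    rintro _ ⟨i, rfl⟩
    exact hx i
  have h2 : MvPolynomial.aeval x (g ^ N) = 0 := hle hN
  rw [map_pow] at h2
  exact pow_ne_zero N hg h2

theorem wc_map' {k K : Type} [Field k] [Field K] [Algebra k K] {n : ℕ} (b : Fin (n + 1) → ℤ)
    (v : ℤ) (G : MvPolynomial (Fin (n + 1)) k) (x : Fin (n + 1) → K) :
    val x (wc b v (MvPolynomial.map (algebraMap k K) G)) = MvPolynomial.aeval x (wc b v G) := by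
  classical
  have h0 : (MvPolynomial.map (algebraMap k K) G).support = G.support :=
    MvPolynomial.support_map_of_injective _ (algebraMap k K).injective
  rw [val_wc, h0]
  unfold wc
  rw [map_sum]
  refine Finset.sum_congr rfl fun α _ => ?_
  rw [MvPolynomial.aeval_monomial, Finsupp.prod_fintype _ _ (fun j => pow_zero _),
    MvPolynomial.coeff_map]
  rfl

/-- orbits over different fields -/
theorem orbits_transfer {k K₁ K₂ : Type} [Field k] [Field K₁] [Algebra k K₁] [Field K₂]
    [Algebra k K₂] [IsAlgClosed K₁] [IsAlgClosed K₂] {n : ℕ} {ι : Type}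
    {F : ι → MvPolynomial (Fin (n + 1)) k}
    (h : OrbitsConstant (fun e => MvPolynomial.map (algebraMap k K₂) (F e))) :
    OrbitsConstant (fun e => MvPolynomial.map (algebraMap k K₁) (F e)) := by
  have hinf : Infinite K₁ := inferInstance
  intro x b hxb j l hj hl
  by_contra hne
  obtain ⟨y, hy, hg⟩ := transfer (K₂ := K₂) (fun ev : ι × ℤ => wc b ev.2 (F ev.1)) (x := x)
    (g := MvPolynomial.X j * MvPolynomial.X l) (fun ev => by
      rw [← wc_map']
      refine wc_of_orbit (fun t ht => ?_) _
      have h1 := hxb t ht ev.1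
      have h2 : (fun j => t ^ b j * x j) = fun j => x j * t ^ b j := by
        funext j
        ring
      rw [h2]
      exact h1) (by
      rw [map_mul, MvPolynomial.aeval_X, MvPolynomial.aeval_X]
      exact mul_ne_zero hj hl)
  rw [map_mul, MvPolynomial.aeval_X, MvPolynomial.aeval_X] at hg
  refine hne (h y b (fun t ht e => ?_) j l (left_ne_zero_of_mul hg) (right_ne_zero_of_mul hg))
  have h3 : val (fun j => t ^ b j * y j) (MvPolynomial.map (algebraMap k K₂) (F e)) = 0 := by
    refine val_orbit (k := K₂) (L := K₂) y b ht _ fun v => ?_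
    rw [wc_map']
    exact hy (e, v)
  have h2 : (fun j => t ^ b j * y j) = fun j => y j * t ^ b j := by
    funext j
    ring
  rw [h2] at h3
  exact h3

end Run7.h177.LG
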