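import Pool.Agent.Run7.h177.LG.Low
import Pool.Agent.Run7.h177.LG.Crv
import Pool.Agent.N155.Q.Frm
import Pool.Agent.N155.L.SFin
import Pool.Agent.N155.G.Half
import Pool.Agent.N154.TB.VGeo

/-!
# Entire curves of bounded derivative in algebraic curves, and rational points
-/

set_option autoImplicit false
set_option linter.overlappingInstances false
set_option linter.unusedSectionVars false

open Filter Topology Metric Set LinearAlgebra.Projectivization

namespace Run7.h177.LG

open FF Pool.Agent.W602.GT Pool.Agent.Y190.OP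
open Pool.Agent.Q103.AR (Points)

variable {n : ℕ}

/-- The Zariski closure of the image of `f` has dimension at most one. -/
def SmallClosure (f : ℂ → ℙ ℂ (Fin (n + 1) → ℂ)) : Prop :=
  ∀ (E : Type) [Field E] [Algebra ℂ E] (w : ℕ) (v : Fin (n + 1) → E), v ≠ 0 →
    coords ℂ v = ⊤ → Algebra.trdeg ℂ E = w →
    (∀ H : MvPolynomial (Fin (n + 1)) ℂ, IsForm H →
      (val v H = 0 ↔ ∀ z, val (f z).rep H = 0)) → w ≤ 1

theorem small_of_inCurve {f : ℂ → ℙ ℂ (Fin (n + 1) → ℂ)} (h : InCurve f) : SmallClosure f := by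
  intro E _ _ w v hv hgen hw hrel
  obtain ⟨E0, _, _, v0, hv0, hgen0, hd0, hmem⟩ := h
  have h1 : Pool.Agent.Q271.RC.IsGeneric v0 := ⟨Function.ne_iff.1 hv0, hgen0⟩
  have h2 : Pool.Agent.Q271.RC.IsGeneric v := ⟨Function.ne_iff.1 hv, hgen⟩
  have h3 : Pool.Agent.Q271.RC.IsPoint v0 v := by
    intro G D hG hG0
    have h4 : ∀ z, val (f z).rep G = 0 := fun z => (hmem z).2 G ⟨D, hG⟩ hG0
    exact (hrel G ⟨D, hG⟩).2 h4
  exact (Pool.Agent.Q96.OS.gen_point' h1 hd0 E v w h3 h2 hw).1

/-- doubly periodic curves lie in algebraic curves -/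
theorem small_of_periodic {f : ℂ → ℙ ℂ (Fin (n + 1) → ℂ)} (hf : Pool.Agent.N155.HolMap f)
    (hper : Pool.Agent.N155.BB.DoublyPeriodic f) : SmallClosure f := by
  intro E _ _ w v hv hgen hw hrel
  by_contra hcon
  push Not at hcon
  obtain ⟨i, hi⟩ := Function.ne_iff.1 hv
  have hi' : v i ≠ 0 := hi
  -- two algebraically independent ratios
  obtain ⟨s, hs⟩ := Pool.Agent.N155.exists_coord_basis hgen hi' hw
  obtain ⟨j0, j1, hind⟩ : ∃ j0 j1, AlgebraicIndependent ℂ ![v j0 / v i, v j1 / v i] := by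
    refine ⟨s ⟨0, by omega⟩, s ⟨1, by omega⟩, ?_⟩
    have h1 := hs.1.comp (![⟨0, by omega⟩, ⟨1, by omega⟩] : Fin 2 → Fin w) (by
      intro a b hab
      fin_cases a <;> fin_cases b <;> simp_all)
    convert h1 using 1
    funext a
    fin_cases a <;> rfl
  obtain ⟨Q, P, e, hQ0, hP, hPf, hPQ⟩ := Pool.Agent.N155.QD.hom_ell hf hper i j0 j1
  have h1 : val v P = 0 := (hrel P ⟨e, hP⟩).2 fun z => by
    rw [Pool.Agent.N155.val_eval]
    exact hPf z
  -- the polynomial identity
  have h2 : MvPolynomial.aeval (fun l => if l = i then (1 : MvPolynomial (Fin (n + 1)) ℂ) else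
      MvPolynomial.X l) P = MvPolynomial.aeval
      ![if j0 = i then (1 : MvPolynomial (Fin (n + 1)) ℂ) else MvPolynomial.X j0,
        if j1 = i then (1 : MvPolynomial (Fin (n + 1)) ℂ) else MvPolynomial.X j1] Q := by
    apply MvPolynomial.funext
    intro u
    set u' : Fin (n + 1) → ℂ := fun l => if l = i then 1 else u l with hu'
    have h3 := hPQ u' (by rw [hu']; simp)
    have h4 : MvPolynomial.eval u (MvPolynomial.aeval (fun l => if l = i then
        (1 : MvPolynomial (Fin (n + 1)) ℂ) else MvPolynomial.X l) P) =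
        MvPolynomial.eval u' P := by
      have h5 := MvPolynomial.comp_aeval_apply (fun l => if l = i then
        (1 : MvPolynomial (Fin (n + 1)) ℂ) else MvPolynomial.X l)
        (MvPolynomial.aeval u : MvPolynomial (Fin (n + 1)) ℂ →ₐ[ℂ] ℂ) P
      rw [MvPolynomial.aeval_eq_eval] at h5
      refine h5.trans ?_
      rw [MvPolynomial.aeval_eq_eval]
      change MvPolynomial.eval _ P = _
      congr 2
      funext l
      rw [hu']
      change MvPolynomial.eval u _ = _
      beta_reduce
      split_ifs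
      · exact map_one _
      · exact MvPolynomial.eval_X _
    have h6 : MvPolynomial.eval u (MvPolynomial.aeval
        ![if j0 = i then (1 : MvPolynomial (Fin (n + 1)) ℂ) else MvPolynomial.X j0,
          if j1 = i then (1 : MvPolynomial (Fin (n + 1)) ℂ) else MvPolynomial.X j1] Q) =
        MvPolynomial.eval ![u' j0, u' j1] Q := by
      have h5 := MvPolynomial.comp_aeval_apply
        ![if j0 = i then (1 : MvPolynomial (Fin (n + 1)) ℂ) else MvPolynomial.X j0,
          if j1 = i then (1 : MvPolynomial (Fin (n + 1)) ℂ) else MvPolynomial.X j1]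
        (MvPolynomial.aeval u : MvPolynomial (Fin (n + 1)) ℂ →ₐ[ℂ] ℂ) Q
      rw [MvPolynomial.aeval_eq_eval] at h5
      refine h5.trans ?_
      rw [MvPolynomial.aeval_eq_eval]
      change MvPolynomial.eval _ Q = _
      congr 2
      funext l
      fin_cases l
      · change MvPolynomial.eval u (if j0 = i then _ else _) = (if j0 = i then _ else _)
        split_ifs
        · exact map_one _
        · exact MvPolynomial.eval_X _
      · change MvPolynomial.eval u (if j1 = i then _ else _) = (if j1 = i then _ else _)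
        split_ifs
        · exact map_one _
        · exact MvPolynomial.eval_X _
    rw [h4, h6, h3]
  have h3 := congrArg (MvPolynomial.aeval (fun l => v l / v i) :
    MvPolynomial (Fin (n + 1)) ℂ →ₐ[ℂ] E) h2
  rw [MvPolynomial.comp_aeval_apply, MvPolynomial.comp_aeval_apply] at h3
  have h4 : (fun l => (MvPolynomial.aeval (fun l => v l / v i) :
      MvPolynomial (Fin (n + 1)) ℂ →ₐ[ℂ] E) (if l = i then 1 else MvPolynomial.X l)) =
      fun l => v l / v i := by
    funext l
    split_ifs with h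
    · rw [map_one, h, div_self hi']
    · exact MvPolynomial.aeval_X _ _
  have h5 : (fun l => (MvPolynomial.aeval (fun l => v l / v i) :
      MvPolynomial (Fin (n + 1)) ℂ →ₐ[ℂ] E) (![if j0 = i then (1 : MvPolynomial (Fin (n + 1)) ℂ)
        else MvPolynomial.X j0, if j1 = i then (1 : MvPolynomial (Fin (n + 1)) ℂ) else
        MvPolynomial.X j1] l)) = ![v j0 / v i, v j1 / v i] := by
    funext l
    fin_cases l
    · change (MvPolynomial.aeval (fun l => v l / v i) : MvPolynomial (Fin (n + 1)) ℂ →ₐ[ℂ] E)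
        (if j0 = i then _ else _) = v j0 / v i
      split_ifs with h
      · rw [map_one, h, div_self hi']
      · exact MvPolynomial.aeval_X _ _
    · change (MvPolynomial.aeval (fun l => v l / v i) : MvPolynomial (Fin (n + 1)) ℂ →ₐ[ℂ] E)
        (if j1 = i then _ else _) = v j1 / v i
      split_ifs with h
      · rw [map_one, h, div_self hi']
      · exact MvPolynomial.aeval_X _ _
  rw [h4, h5] at h3
  have h6 : val v P = v i ^ e * val (fun l => v l / v i) P := by
    rw [← val_smul hP]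
    congr 1
    funext l
    field_simp
  have h7 : val (fun l => v l / v i) P = 0 := by
    rw [h1] at h6
    exact (mul_eq_zero.1 h6.symm).resolve_left (pow_ne_zero _ hi')
  apply hQ0
  apply (algebraicIndependent_iff.1 hind) Q
  rw [← h3]
  exact h7

/-- the derivative of a doubly periodic curve is bounded -/
theorem bounded_of_periodic {f : ℂ → ℙ ℂ (Fin (n + 1) → ℂ)} (hf : Pool.Agent.N155.HolMap f)
    (hper : Pool.Agent.N155.BB.DoublyPeriodic f) :
    ∃ B : ℝ, ∀ z, ‖fderiv ℝ (fun z => Phi (f z).rep) z‖ ≤ B := by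
  obtain ⟨L, hL⟩ := hper
  obtain ⟨b, hb⟩ := Pool.Agent.N155.GD.lat_bound (g := f) L.indep
    (fun z => hL _ L.ω₁_mem_lattice z) (fun z => hL _ L.ω₂_mem_lattice z)
  have hhol := Pool.Agent.N155.holP_of_map hf
  have hcont : ContinuousOn (fun z => ‖fderiv ℝ (fun z => Phi (f z).rep) z‖) (closedBall 0 b) :=
    fun z _ => (hhol.continuousAt_fderiv (mem_univ z)).norm.continuousWithinAt
  obtain ⟨B, hB⟩ := (isCompact_closedBall (0 : ℂ) b).exists_bound_of_continuousOn hcont
  refine ⟨B, fun z => ?_⟩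
  obtain ⟨l, hl, hper⟩ := hb z
  have h1 : fderiv ℝ (fun z => Phi (f z).rep) (z + l) = fderiv ℝ (fun z => Phi (f z).rep) z := by
    rw [← fderiv_comp_add_right]
    congr 1
    funext w
    rw [hper]
  have h2 := hB (z + l) (by rwa [mem_closedBall_zero_iff])
  rw [norm_norm, h1] at h2
  exact h2

/-- **Entire curves in algebraic curves and rational points.** -/
theorem entire_points {k : Type} [Field k] [NumberField k] (σ : k →+* ℂ) {ι : Type}
    (F : ι → MvPolynomial (Fin (n + 1)) k) (hF : ∀ e, IsForm (F e))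
    (G : MvPolynomial (Fin (n + 1)) k) (hG : IsForm G) {f : ℂ → ℙ ℂ (Fin (n + 1) → ℂ)}
    (hf : Pool.Agent.N155.HolMap f)
    (hfX : ∀ z, (f z).rep ∈ Cone (fun e => MvPolynomial.map σ (F e))) {B : ℝ}
    (hB : ∀ z, ‖fderiv ℝ (fun z => Phi (f z).rep) z‖ ≤ B) (hnc : ∃ z w, f z ≠ f w)
    (hsm : SmallClosure f) (hGf : ∃ z, val (f z).rep (MvPolynomial.map σ G) ≠ 0) :
    ∃ (L : Type) (_ : Field L) (_ : NumberField L) (_ : Algebra k L),
      {P | P ∈ Points F L ∧ MvPolynomial.aeval P.rep G ≠ 0}.Infinite := by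
  have hol := Pool.Agent.N155.holP_of_map hf
  have hne : ∀ z, (f z).rep ≠ 0 := fun z => (f z).rep_nonzero
  obtain ⟨K1, _, _, w, y1, hy1, hgen, hw, hrel, hw0⟩ := Pool.Agent.N155.exists_closure hol
  have hrel' : ∀ H : MvPolynomial (Fin (n + 1)) ℂ, IsForm H →
      (val y1 H = 0 ↔ ∀ z, val (f z).rep H = 0) := by
    intro H hH
    rw [hrel H hH]
    obtain ⟨d, hd⟩ := hH
    refine forall_congr' fun z => ?_
    rw [Pool.Agent.N155.nz_Phi hd (hne z), not_not, Pool.Agent.N155.val_eval]
  have hw1 : w ≤ 1 := hsm K1 w y1 hy1 hgen hw hrel'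
  have hw2 : w = 1 := by
    by_contra hcon
    have h0 : w = 0 := by omega
    obtain ⟨z1, z2, hz⟩ := hnc
    apply hz
    have h2 : ∀ z, f z = f 0 := by
      intro z
      obtain ⟨c, hc0, hc1⟩ := Phi_inj (hne z) (hne 0) (hw0 h0 z)
      rw [← (f z).mk_rep, ← (f 0).mk_rep, Projectivization.mk_eq_mk_iff']
      exact ⟨c⁻¹, by rw [hc1, smul_smul, inv_mul_cancel₀ hc0, one_smul]⟩
    rw [h2 z1, h2 z2]
  subst hw2
  have hcv : Pool.Agent.N155.Cv y1 (fun z => Phi (f z).rep) := by
    refine ⟨hol, fun z => ⟨(f z).rep, ⟨hne z, fun H hH h0 => (hrel' H hH).1 h0 z⟩, rfl⟩,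
      fun H hH hv => ?_⟩
    by_contra hcon
    push Not at hcon
    exact hv ((hrel H hH).2 hcon)
  have hgt := Pool.Agent.N155.crv_not_general hgen hcv hB
  have hsub : SubVar (fun e => MvPolynomial.map σ (F e)) K1 1 y1 :=
    ⟨hy1, fun i => (hrel' _ (by
      obtain ⟨d, hd⟩ := hF i
      exact ⟨d, hd.map σ⟩)).2 fun z => (hfX z).2 i, hgen, hw⟩
  refine sub_points σ F hF G hG hsub hgt fun h0 => ?_
  obtain ⟨z, hz⟩ := hGf
  exact hz ((hrel' _ (by
    obtain ⟨d, hd⟩ := hG
    exact ⟨d, hd.map σ⟩)).1 h0 z)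

end Run7.h177.LG
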