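import Pool.Agent.Run7.h177.LG.Abel

/-!
# Rational points and entire curves in projective manifolds with positive 2-forms and with symmetric
differentials without common zeros
-/

set_option autoImplicit false
set_option linter.overlappingInstances false
set_option linter.unusedSectionVars false

open Filter Topology Metric Set LinearAlgebra.Projectivization

namespace Run7.h177.LG

open FF Pool.Agent.W602.GT Pool.Agent.Y190.OP Pool.Agent.N155.BB Pool.Agent.N155.QD
open Pool.Agent.Q103.AR (Points)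

variable {n : ℕ}

/-- the product of forms vanishing on a curve -/
theorem zero_of_prod {f : ℂ → ℙ ℂ (Fin (n + 1) → ℂ)} (hf : Pool.Agent.N155.HolMap f)
    {P R : MvPolynomial (Fin (n + 1)) ℂ} {a b : ℕ} (hP : P.IsHomogeneous a)
    (hR : R.IsHomogeneous b) (h : ∀ z, MvPolynomial.eval (f z).rep (P * R) = 0) {w : ℂ}
    (hw : MvPolynomial.eval (f w).rep R ≠ 0) : ∀ z, MvPolynomial.eval (f z).rep P = 0 := by
  have hol := Pool.Agent.N155.holP_of_map hf
  have hne : ∀ z, (f z).rep ≠ 0 := fun z => (f z).rep_nonzero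
  by_contra hcon
  push Not at hcon
  obtain ⟨z1, hz1⟩ := hcon
  have h1 := Pool.Agent.N155.nz_codis hol hP (z1 := z1)
    ((Pool.Agent.N155.nz_Phi hP (hne z1)).2 hz1)
  have h2 := Pool.Agent.N155.nz_codis hol hR (z1 := w)
    ((Pool.Agent.N155.nz_Phi hR (hne w)).2 hw)
  obtain ⟨z, hz1, hz2⟩ := (Pool.Agent.N155.codis_ev (h1.and h2) 0).exists
  rw [Pool.Agent.N155.nz_Phi hP (hne z)] at hz1
  rw [Pool.Agent.N155.nz_Phi hR (hne z)] at hz2
  have h3 := h z
  rw [map_mul] at h3
  exact mul_ne_zero hz1 hz2 h3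

/-- a linear form which vanishes at one of two points -/
theorem exists_linear {p q : ℙ ℂ (Fin (n + 1) → ℂ)} (h : p ≠ q) :
    ∃ R : MvPolynomial (Fin (n + 1)) ℂ, R.IsHomogeneous 1 ∧ MvPolynomial.eval p.rep R = 0 ∧
      MvPolynomial.eval q.rep R ≠ 0 := by
  obtain ⟨i, hi⟩ := Function.ne_iff.1 p.rep_nonzero
  have hi' : p.rep i ≠ 0 := hi
  obtain ⟨j, hj⟩ : ∃ j, p.rep i * q.rep j ≠ p.rep j * q.rep i := by
    by_contra hcon
    push Not at hcon
    apply h
    rw [← p.mk_rep, ← q.mk_rep, Projectivization.mk_eq_mk_iff']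
    have h0 : q.rep i ≠ 0 := by
      intro h0
      apply q.rep_nonzero
      funext j
      have h1 := hcon j
      rw [h0, mul_zero] at h1
      exact (mul_eq_zero.1 h1).resolve_left hi'
    refine ⟨p.rep i / q.rep i, ?_⟩
    funext j
    rw [Pi.smul_apply, smul_eq_mul]
    have h1 := hcon j
    field_simp
    linear_combination h1
  refine ⟨MvPolynomial.C (p.rep i) * MvPolynomial.X j - MvPolynomial.C (p.rep j) *
    MvPolynomial.X i, ?_, ?_, ?_⟩
  · exact (MvPolynomial.isHomogeneous_C_mul_X _ _).sub (MvPolynomial.isHomogeneous_C_mul_X _ _)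
  · simp only [map_sub, map_mul, MvPolynomial.eval_C, MvPolynomial.eval_X]
    ring
  · simp only [map_sub, map_mul, MvPolynomial.eval_C, MvPolynomial.eval_X]
    exact sub_ne_zero.2 hj

/-- There are no curves of derivative bounded above and below in `G = 0`. -/
theorem noBC_of_points {k : Type} [Field k] [NumberField k] (σ : k →+* ℂ) {ι ι' κ : Type}
    (F : ι → MvPolynomial (Fin (n + 1)) k) (hF : ∀ e, IsForm (F e))
    (G : ι' → MvPolynomial (Fin (n + 1)) ℂ)
    (Q : κ → MvPolynomial (Fin (n + 1)) k) (hQ : ∀ j, IsForm (Q j))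
    (hS : ∀ h, HolIn (fun e => MvPolynomial.map σ (F e)) h → (∀ z, (h z).rep ∈ Cone G) →
      (∀ z w, h z = h w) ∨ (InCurve h ∧ ∃ j z, val (h z).rep (MvPolynomial.map σ (Q j)) ≠ 0))
    (hfin : ∀ (L : Type) [Field L] [NumberField L] [Algebra k L],
      (Points F L \ Points Q L).Finite) :
    NoBC (fun e => MvPolynomial.map σ (F e)) G := by
  intro f hf hfG c C hc hb
  rcases hS f hf hfG with h1 | ⟨h1, j, z, hz⟩
  · exact const_not_below h1 hc hb
  · obtain ⟨B, hB⟩ := bounded_of_between hf.1 hb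
    refine hz (small_zero σ F hF Q hQ hfin hf.1 hf.2 hB ?_ (small_of_inCurve h1) j z)
    by_contra hcon
    push Not at hcon
    exact const_not_below hcon hc hb

/-- **Rational points and entire curves in manifolds with symmetric differentials.** -/
theorem main_semi {k : Type} [Field k] [NumberField k] (σ : k →+* ℂ) {ι ι' κ : Type}
    (F : ι → MvPolynomial (Fin (n + 1)) k) (d : ℕ)
    (hX : ProjManifold (fun e => MvPolynomial.map σ (F e)) d)
    (G : ι' → MvPolynomial (Fin (n + 1)) ℂ) (hG : ∀ i, IsForm (G i))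
    (hZ : NoBC (fun e => MvPolynomial.map σ (F e)) G) {κ' : Type}
    (η : κ' → (Fin (n + 1) → ℂ) → (Fin (n + 1) → ℂ) → (Fin (n + 1) → ℂ) → ℂ)
    (hη : PositiveTwoForms (Cone (fun e => MvPolynomial.map σ (F e))) (Cone G) d η) (r : ℕ)
    {τ : Type} [Fintype τ] [Nonempty τ]
    (ω : τ → (Fin (n + 1) → ℂ) → (Fin (n + 1) → ℂ) → ℂ) (hr : 0 < r)
    (hω : ∀ a, SymDiff (Cone (fun e => MvPolynomial.map σ (F e))) d r (ω a))
    (hn : NoCommonZero (Cone (fun e => MvPolynomial.map σ (F e))) d ω)
    (Q : κ → MvPolynomial (Fin (n + 1)) k) (hQ : ∀ j, IsForm (Q j))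
    (hfin : ∀ (L : Type) [Field L] [NumberField L] [Algebra k L],
      (Points F L \ Points Q L).Finite) :
    ∀ f, HolIn (fun e => MvPolynomial.map σ (F e)) f → (∀ z w, f z = f w) ∨
      ∀ j z, val (f z).rep (MvPolynomial.map σ (Q j)) = 0 := by
  classical
  intro f hf
  by_cases hc : ∀ z w, f z = f w
  · exact Or.inl hc
  right
  have hF : ∀ e, IsForm (F e) := fun e => isForm_of_map σ (hX.form e)
  obtain ⟨S, hS1, -, hS3⟩ := sym_picard hX hG hη hZ hω hr hn
  intro j
  -- the constant members of the list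
  have hlin : ∀ g : ℂ → ℙ ℂ (Fin (n + 1) → ℂ), ∃ R : MvPolynomial (Fin (n + 1)) ℂ, ∃ w : ℂ,
      R.IsHomogeneous 1 ∧ MvPolynomial.eval (g 0).rep R = 0 ∧
      MvPolynomial.eval (f w).rep R ≠ 0 := by
    intro g
    obtain ⟨w, hw⟩ : ∃ w, g 0 ≠ f w := by
      by_contra hcon
      push Not at hcon
      exact hc fun z w => by rw [← hcon z, ← hcon w]
    obtain ⟨R, h1, h2, h3⟩ := exists_linear hw
    exact ⟨R, w, h1, h2, h3⟩
  choose R w hR1 hR2 hR3 using hlin
  obtain ⟨e, he⟩ := hQ j
  have he' : (MvPolynomial.map σ (Q j)).IsHomogeneous e := he.map σ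
  -- the list
  have key : ∀ T : Finset (ℂ → ℙ ℂ (Fin (n + 1) → ℂ)), T ⊆ S →
      (∀ z, MvPolynomial.eval (f z).rep (MvPolynomial.map σ (Q j) * ∏ g ∈ T, R g) = 0) →
      ∀ z, MvPolynomial.eval (f z).rep (MvPolynomial.map σ (Q j)) = 0 := by
    intro T
    induction T using Finset.induction_on with
    | empty =>
      intro _ h z
      have := h z
      rwa [Finset.prod_empty, mul_one] at this
    | insert g T hg ih =>
      intro hsub h
      apply ih ((Finset.subset_insert _ _).trans hsub)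
      have h1 : MvPolynomial.map σ (Q j) * ∏ g ∈ insert g T, R g =
          (MvPolynomial.map σ (Q j) * ∏ g ∈ T, R g) * R g := by
        rw [Finset.prod_insert hg]
        ring
      rw [h1] at h
      exact zero_of_prod hf.1 (he'.mul (MvPolynomial.IsHomogeneous.prod T _ (fun _ => 1)
        fun g _ => hR1 g)) (hR1 g) h (hR3 g)
  have hfinal := key S (Finset.Subset.refl _) ((hS3 (MvPolynomial.map σ (Q j) * ∏ g ∈ S, R g) _
    (he'.mul (MvPolynomial.IsHomogeneous.prod S _ (fun _ => 1) fun g _ => hR1 g))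
    (fun g hg z => ?_)).1 f hf (by
      by_contra hcon
      push Not at hcon
      exact hc hcon))
  · intro z
    rw [Pool.Agent.N155.val_eval]
    exact hfinal z
  · rw [map_mul]
    by_cases hgc : ∀ z w, g z = g w
    · rw [map_prod, Finset.prod_eq_zero hg (by rw [hgc z 0]; exact hR2 g), mul_zero]
    · push Not at hgc
      obtain ⟨hg1, hg2⟩ := hS1 g hg
      obtain ⟨B, hB⟩ := bounded_of_periodic hg1.1 hg2
      have h1 := small_zero σ F hF Q hQ hfin hg1.1 hg1.2 hB hgc (small_of_periodic hg1.1 hg2) j z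
      rw [Pool.Agent.N155.val_eval] at h1
      rw [h1, zero_mul]

end Run7.h177.LG
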