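import Pool.Agent.Run7.h177.LG.Gm
import Pool.Agent.Run7.h177.LG.Orb
import Pool.Agent.R869.WLang

/-!
# Rational points and hyperbolicity for wide systems of equations
-/

set_option autoImplicit false
set_option linter.overlappingInstances false
set_option linter.unusedSectionVars false

open Metric

namespace Run7.h177.LG

open FF Pool.Agent.W602.GT Pool.Agent.H159R3.GGLLog Pool.Agent.R869.Wd
open Pool.Agent.W603.CX (OrbitsConstant)
open Pool.Agent.Y190.PH (Brody)
open Pool.Agent.Q103.AR (Points)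
open Pool.Agent.W603.BP (Extends)

variable {k : Type} [Field k] [NumberField k] {n : ℕ} {ι κ : Type}
  {F : ι → MvPolynomial (Fin (n + 1)) k}

/-- wide systems over `ℂ` -/
theorem brody_orbits {F : ι → MvPolynomial (Fin (n + 1)) ℂ} {s N : ℕ} (hC : Sys ∅ F s N) :
    Brody F ↔ OrbitsConstant F := by
  obtain ⟨e1, -, -⟩ := special_hol hC
  have e3 := (special_orb hC).2
  have h2 := (gm_iff hC).out 1 2
  rw [← h2, ← gm_empty_iff, e3, ← e1, Pool.Agent.R869.Wd.brody_iff]

theorem sparse_off (σ : k →+* ℂ) {s N : ℕ} (hF : ∀ e, IsForm (F e))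
    (hC : Sys ∅ (fun e => MvPolynomial.map σ (F e)) s N)
    {Q : κ → MvPolynomial (Fin (n + 1)) k} (hQ : ∀ j, IsForm (Q j)) (hfin : FiniteOff F Q) :
    EntireIn (fun e => MvPolynomial.map σ (F e)) (fun j => MvPolynomial.map σ (Q j)) ∧
    PicardIn (fun e => MvPolynomial.map σ (F e)) (fun j => MvPolynomial.map σ (Q j)) ∧
    GeneralOff (fun e => MvPolynomial.map σ (F e)) (fun j => MvPolynomial.map σ (Q j)) := by
  obtain ⟨e1, -, e2⟩ := special_hol hC
  obtain ⟨e3, e4⟩ := special_orb hC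
  refine ⟨fun f hf hf0 hfF => ?_, fun f hf hfF => ?_, general_off σ F hF hQ hfin (by
    rw [e3, e4])⟩
  · by_contra hcon
    push Not at hcon
    obtain ⟨⟨z, w, hzw⟩, z', j, hj⟩ := hcon
    apply hj
    have hcurve : EntireCurve ∅ (fun e => MvPolynomial.map σ (F e)) f :=
      ⟨hf, fun z => ⟨hf0 z, fun j hj => absurd hj (Set.notMem_empty j), fun e => hfF z e⟩,
        z, w, hzw⟩
    have h1 : f z' ∈ SpH ∅ (fun e => MvPolynomial.map σ (F e)) := ⟨⟨hf0 z',
      fun j hj => absurd hj (Set.notMem_empty j), fun e => hfF z' e⟩,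
      fun G _ hG' => hG' f hcurve z'⟩
    rw [e1, ← e4] at h1
    exact spGm_zero σ F hF hQ hfin h1 j
  · by_contra hcon
    push Not at hcon
    obtain ⟨hE, z', hz', j, hj⟩ := hcon
    apply hj
    have hc : Pool.Agent.W603.BP.PCurve ∅ (fun e => MvPolynomial.map σ (F e)) f :=
      ⟨hf, fun z hz => ⟨(hfF z hz).1, fun j hj => absurd hj (Set.notMem_empty j), (hfF z hz).2⟩⟩
    have h1 : f z' ∈ Pool.Agent.W603.BP.SpP ∅ (fun e => MvPolynomial.map σ (F e)) :=
      ⟨hc.2 _ hz', fun G _ hG => hG f hc hE _ hz'⟩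
    rw [e2, ← e4] at h1
    exact spGm_zero σ F hF hQ hfin h1 j

/-- hyperbolicity for one and for all embeddings -/
theorem sparse_orbits (σ : k →+* ℂ) {s N : ℕ}
    (hC : Sys ∅ (fun e => MvPolynomial.map σ (F e)) s N) :
    Brody (fun e => MvPolynomial.map σ (F e)) ↔
      OrbitsConstant (fun e => MvPolynomial.map (algebraMap k (AlgebraicClosure k)) (F e)) := by
  rw [brody_orbits hC]
  let _ : Algebra k ℂ := σ.toAlgebra
  constructor
  · intro h
    exact orbits_transfer (k := k) (K₁ := AlgebraicClosure k) (K₂ := ℂ) h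
  · intro h
    exact orbits_transfer (k := k) (K₁ := ℂ) (K₂ := AlgebraicClosure k) h

end Run7.h177.LG
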