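import Pool.Agent.Run7.h177.LG.Low
import Pool.Agent.N155.L.SFin
import Pool.Agent.Q239.SF.W5
import Pool.Agent.Q103.SF.Defs2

/-!
# Rational points and hyperbolicity of surfaces of general type with symmetric differentials
-/

set_option autoImplicit false
set_option linter.overlappingInstances false
set_option linter.unusedSectionVars false

namespace Run7.h177.LG

open FF Pool.Agent.W602.GT Pool.Agent.N155 LinearAlgebra.Projectivization
open Pool.Agent.Y221.BD (EntireCurve)
open Pool.Agent.Q103.SF (KobayashiHyp BrodyHyp AllGeneral)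
open Pool.Agent.Q103.AR (Points)
open Pool.Agent.TH466.QG (SubOf)

/-- There are enough regular symmetric differentials on the smooth projective surfaces with function
field `K`: for every derivation `D` of `K`, with values in an extension of `K`, without nonconstant
rational first integrals (`D f = 0` for `f` in `K` only if `f` is constant) there is a regular
symmetric differential `ω` of positive degree with `ω(D) ≠ 0`. -/
def ManySym (K : Type) [Field K] [Algebra ℂ K] : Prop :=
  ∀ (L : Type) [Field L] [Algebra ℂ L] [Algebra K L] [IsScalarTower ℂ K L]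
    (D : Derivation ℂ K L), (∀ f : K, D f = 0 → ∃ c : ℂ, f = algebraMap ℂ K c) →
    ∃ ω : SymD K, 0 < ω.d ∧ ω.Regular 2 ∧ ω.app D ≠ 0

/-- There is a regular symmetric differential `h da₁ ⋯ da_d`, `d > 0`, `h ≠ 0`, with nonconstant
rational functions `a₁, …, a_d`. -/
def SplitSym (K : Type) [Field K] [Algebra ℂ K] : Prop :=
  ∃ (d : ℕ) (h : K) (a : Fin d → K), 0 < d ∧ h ≠ 0 ∧ (∀ l, Transcendental ℂ (a l)) ∧
    (⟨d, 1, fun _ => h, fun _ => a⟩ : SymD K).Regular 2

/-- There are two regular differential forms of degree one which are linearly independent over the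
function field: they have no common zero in the derivations of `K`. -/
def TwoOneForms (K : Type) [Field K] [Algebra ℂ K] : Prop :=
  ∃ ω₁ ω₂ : SymD K, ω₁.d = 1 ∧ ω₂.d = 1 ∧ ω₁.Regular 2 ∧ ω₂.Regular 2 ∧
    ∀ D : Derivation ℂ K K, ω₁.app D = 0 → ω₂.app D = 0 → D = 0

/-- There is a nonconstant rational map `(a, b)` to an elliptic curve `b² = 4 a³ - g₂ a - g₃`. -/
def OverElliptic (K : Type) [Field K] [Algebra ℂ K] : Prop :=
  ∃ (a b : K) (g2 g3 : ℂ), b ^ 2 = 4 * a ^ 3 - algebraMap ℂ K g2 * a - algebraMap ℂ K g3 ∧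
    g2 ^ 3 ≠ 27 * g3 ^ 2 ∧ Transcendental ℂ a

theorem manySym_of_split {K : Type} [Field K] [Algebra ℂ K] (h : SplitSym K) : ManySym K := by
  obtain ⟨d, h, a, hd, hh, ha, hreg⟩ := h
  intro L _ _ _ _ D hD
  refine ⟨_, hd, hreg, ?_⟩
  unfold SymD.app
  rw [Fin.sum_univ_one]
  refine mul_ne_zero ?_ (Finset.prod_ne_zero_iff.2 fun l _ h0 => ?_)
  · exact (map_ne_zero_iff _ (algebraMap K L).injective).2 hh
  · obtain ⟨c, hc⟩ := hD _ h0
    apply ha l
    have hc' : a l = algebraMap ℂ K c := hc
    rw [hc']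
    exact isAlgebraic_algebraMap _

/-- the composition of a derivation `K → L` and a `K`-linear function `L → K` -/
noncomputable def compD {K : Type} [Field K] [Algebra ℂ K] {L : Type} [Field L] [Algebra ℂ L]
    [Algebra K L] [IsScalarTower ℂ K L] (D : Derivation ℂ K L) (l : L →ₗ[K] K) :
    Derivation ℂ K K :=
  l.compDer D

theorem app_one {K : Type} [Field K] [Algebra ℂ K] {L : Type} [Field L] [Algebra ℂ L]
    [Algebra K L] [IsScalarTower ℂ K L] (D : Derivation ℂ K L) (l : L →ₗ[K] K) (ω : SymD K)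
    (hd : ω.d = 1) : ω.app (compD D l) = l (ω.app D) := by
  obtain ⟨d, r, h, f⟩ := ω
  obtain rfl : d = 1 := hd
  unfold SymD.app
  simp only [Fin.prod_univ_one, map_sum, Algebra.algebraMap_self, RingHom.id_apply]
  refine Finset.sum_congr rfl fun j _ => ?_
  rw [← Algebra.smul_def, map_smul, smul_eq_mul]
  rfl

theorem manySym_of_two {K : Type} [Field K] [Algebra ℂ K] (htr : Algebra.trdeg ℂ K ≠ 0)
    (h : TwoOneForms K) : ManySym K := by
  obtain ⟨ω₁, ω₂, h1, h2, hr1, hr2, h3⟩ := h
  intro L _ _ _ _ D hD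
  by_contra hcon
  push Not at hcon
  have hz1 := hcon ω₁ (by omega) hr1
  have hz2 := hcon ω₂ (by omega) hr2
  have hD0 : ∀ f, D f = 0 := by
    intro f
    by_contra hf
    obtain ⟨l, hl⟩ := Module.Projective.exists_dual_ne_zero K hf
    have h4 := h3 (compD D l) (by rw [app_one D l ω₁ h1, hz1, map_zero])
      (by rw [app_one D l ω₂ h2, hz2, map_zero])
    apply hl
    exact DFunLike.congr_fun h4 f
  apply htr
  have halg : Algebra.IsAlgebraic ℂ K := ⟨fun f => by
    obtain ⟨c, hc⟩ := hD f (hD0 f)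
    rw [hc]
    exact isAlgebraic_algebraMap _⟩
  exact trdeg_eq_zero

variable {k : Type} [Field k] [NumberField k] (σ : k →+* ℂ) {n : ℕ} {ι : Type}
  (F : ι → MvPolynomial (Fin (n + 1)) k) {K : Type} [Field K] [Algebra ℂ K] {y : Fin (n + 1) → K}

/-- If `X(L)` is finite for all number fields `L ⊇ k`, and `X_σ` is of general type, then all
subvarieties are of general type. -/
theorem all_general (hX : SmoothSurface (fun e => MvPolynomial.map σ (F e)) y)
    (hgt : GeneralType ℂ K 2)
    (hfin : ∀ (L : Type) [Field L] [NumberField L] [Algebra k L], (Points F L).Finite) :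
    AllSubGeneral (fun e => MvPolynomial.map σ (F e)) := by
  intro E _ _ w v hw hv
  have hform : ∀ e, IsForm (F e) := fun e => isForm_of_map σ (hX.form e)
  obtain ⟨h1, h2⟩ := sub_dim hX.sub hX.irred hv
  have h3 : w = 1 ∨ w = 2 := by omega
  rcases h3 with rfl | rfl
  · exact curve_general σ F hform hfin hv
  · obtain ⟨e⟩ := h2 rfl
    exact Pool.Agent.TH466.QG.general_of_equiv e hgt

/-- entire curves given by entire functions -/
theorem no_entire {H : ι → MvPolynomial (Fin (n + 1)) ℂ} (hX : SmoothSurface H y)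
    (h : BrodyHyperbolic H) : ∀ f, ¬ EntireCurve y f := by
  intro f hf
  have hne : ∀ z, (fun i => f i z) ≠ 0 := by
    intro z h0
    obtain ⟨i, hi⟩ := hf.ne z
    exact hi (congrFun h0 i)
  have hg : HolMap (fun z => Projectivization.mk ℂ (fun i => f i z) (hne z)) := fun z =>
    ⟨Set.univ, fun w i => f i w, isOpen_univ, Set.mem_univ _,
      fun w _ => (differentiableAt_pi.2 fun i => hf.hol i w).differentiableWithinAt,
      fun w _ => ⟨hne w, rfl⟩⟩
  have hmem : ∀ z, (Projectivization.mk ℂ (fun i => f i z) (hne z)).rep ∈ Cone H := by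
    intro z
    refine ⟨Projectivization.rep_nonzero _, fun i => ?_⟩
    obtain ⟨a, ha⟩ := Projectivization.exists_smul_eq_mk_rep ℂ (fun i => f i z) (hne z)
    rw [← ha]
    obtain ⟨d, hd⟩ := hX.form i
    have h1 : (a • fun i => f i z) = fun i => (a : ℂ) * f i z := rfl
    rw [h1, val_smul hd]
    have h2 : val (fun i => f i z) (H i) = 0 := hf.mem (H i) ⟨d, hd⟩ (hX.sub.mem i) z
    rw [h2, mul_zero]
  obtain ⟨i, j, a, b, hab⟩ := hf.nonconst
  have h1 := h _ hg hmem a b
  rw [Projectivization.mk_eq_mk_iff'] at h1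
  obtain ⟨c, hc⟩ := h1
  apply hab
  have h2 : ∀ i, f i a = c * f i b := fun i => (congrFun hc i).symm
  rw [h2 i, h2 j]
  ring

theorem allGeneral_of {H : ι → MvPolynomial (Fin (n + 1)) ℂ} (hX : SmoothSurface H y)
    (h : AllSubGeneral H) : AllGeneral y := by
  intro E _ _ w z hz hw ht
  exact h E w z hw ⟨hz.ne, fun i => hz.spec _ (hX.form i) (hX.sub.mem i), hz.gen, ht⟩

/-- **Rational points and hyperbolicity.** -/
theorem main_sym (hX : SmoothSurface (fun e => MvPolynomial.map σ (F e)) y)
    (hgt : GeneralType ℂ K 2)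
    (hfin : ∀ (L : Type) [Field L] [NumberField L] [Algebra k L], (Points F L).Finite) :
    AllGeneral y ∧
    (∀ f : ℂ → Projectivization ℂ (Fin (n + 1) → ℂ), HolMap f →
      (∀ z, (f z).rep ∈ Cone (fun e => MvPolynomial.map σ (F e))) → BoundedDer f →
        ∀ ω : SymD K, 0 < ω.d → ω.Regular 2 → ω.Tangent y f) ∧
    (ManySym K ∨ SplitSym K ∨ TwoOneForms K ∨ OverElliptic K → KobayashiHyp y ∧ BrodyHyp y) := by
  have hgen := all_general σ F hX hgt hfin
  refine ⟨allGeneral_of hX hgen, fun f hf hfX hb ω hd hreg =>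
    tangent_of_bounded hX hgen hf hfX hb hd hreg, fun hsym => ?_⟩
  have hb : BrodyHyperbolic (fun e => MvPolynomial.map σ (F e)) := by
    have hm : ManySym K → BrodyHyperbolic (fun e => MvPolynomial.map σ (F e)) := fun h =>
      hyp_of_sym hX hgen h
    rcases hsym with h | h | h | ⟨a, b, g2, g3, hab, hE, ha⟩
    · exact hm h
    · exact hm (manySym_of_split h)
    · exact hm (manySym_of_two (by rw [hX.sub.dim]; simp) h)
    · exact brody_of_elliptic hX hab hE ha hgen
  have hb' := no_entire hX hb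
  exact ⟨(Pool.Agent.Q239.SF.kob n K y).1 hb', hb'⟩

end Run7.h177.LG
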